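import Pool.Agent.H36.LFI.Iso

/-!
# A properly 1-generic degree, low for isomorphism, not below any weakly 2-generic set

The set `SS` of strings (file `Pool/Agent/H36/LFI/Construction.lean`) is `Σ⁰₂`; it is built in
stages, together with a growing finite list of computable search processes. At every stage one
more functional is treated above one more string `ρ`: either some extension of `ρ` has no longer
outputs, or there is no splitting above some extension of `ρ`, or the output on some extension of
`ρ` becomes a member of `SS`. New members of `SS` are long and leave all the processes started so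
far. Hence no noncomputable set avoiding `SS` is computable from a weakly 2-generic set, while
generic sets avoiding `SS` are 1-generic and low for isomorphism.
-/

namespace Pool.Agent.Results.MP_81a968_lc.LowForIso

open Pool.Agent.H36.LFI

/-- There is a Turing degree which is properly 1-generic and low for isomorphism, and which is not
computable from any weakly 2-generic set. -/
theorem result : ∃ d : TuringDegree, IsProperlyOneGeneric d ∧ IsLowForIsomorphism d ∧
    ∀ Y, IsWeaklyTwoGeneric Y → ¬ d ≤ deg Y := by
  obtain ⟨X, hav, hreq⟩ := exists_generic
  have h1 := oneGeneric_of_req hreq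
  have hnb : ∀ Y, IsWeaklyTwoGeneric Y → ¬ deg X ≤ deg Y := by
    intro Y hY hle
    exact not_below hav (not_computable_of_oneGeneric h1) hY (le_deg_iff.1 hle)
  refine ⟨deg X, ⟨⟨X, h1, rfl⟩, fun Y hY he => hnb Y hY (le_of_eq he.symm)⟩, ?_, hnb⟩
  intro relAr funAr hr hf M N ⟨f, hfd, hiso⟩
  exact lfi_of_req hreq hr hf M N (le_deg_iff.1 hfd) hiso

end Pool.Agent.Results.MP_81a968_lc.LowForIso
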